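import Pool.Agent.Lib.MP_c1e222_an.H31.ScTools

/-!
# MP_c1e222_an, row Sc (helper31): the estimates for a fixed shift
-/

set_option autoImplicit false

namespace Pool.Agent.C1E.Sc31

open MeasureTheory Set Filter Topology
open S70 (JC ii)

noncomputable section

/-- continuity in the shift -/
theorem ii_shift_cont {t0 t1 : ℝ} {F G : ℝ → ℝ → ℝ} (hF : JC F) (hG : JC G) :
    Continuous fun z => ii t0 t1 fun t x => |F t (x - z)| * |G t x| := by
  have hF0 : Continuous fun q : ℝ × ℝ => F q.1 q.2 := hF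
  have hG0 : Continuous fun q : ℝ × ℝ => G q.1 q.2 := hG
  have e1 : Continuous fun q : (ℝ × ℝ) × ℝ => |F q.1.2 (q.2 - q.1.1)| * |G q.1.2 q.2| := by
    have e2 : Continuous fun q : (ℝ × ℝ) × ℝ => F q.1.2 (q.2 - q.1.1) :=
      hF0.comp (by fun_prop : Continuous fun q : (ℝ × ℝ) × ℝ => ((q.1.2, q.2 - q.1.1) : ℝ × ℝ))
    have e3 : Continuous fun q : (ℝ × ℝ) × ℝ => G q.1.2 q.2 :=
      hG0.comp (by fun_prop : Continuous fun q : (ℝ × ℝ) × ℝ => ((q.1.2, q.2) : ℝ × ℝ))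
    exact e2.abs.mul e3.abs
  have e4 : Continuous fun p : ℝ × ℝ => cint fun x => |F p.2 (x - p.1)| * |G p.2 x| :=
    S70.cint_cont e1
  unfold ii
  exact intervalIntegral.continuous_parametric_intervalIntegral_of_continuous' e4 _ _

/-- the second and the third transfer estimate, the crossing estimate and the hypothesis on `X`
for one piece `h` which is separated from `j` -/
theorem one_h {M : ℕ} {E CT CC CS : ℝ} (hCT : 0 < CT) (hCC : 0 < CC)
    {u r : ℝ → ℝ → ℝ} (hu : Core E u r) {t0 t1 : ℝ} (ht : t0 ≤ t1)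
    (hTR : ∀ u r : ℝ → ℝ, Prof E u r → ∀ l j : ℕ, M ≤ l → Sep l j → ∀ z : ℝ,
      (kap l) ^ 2 * cint (fun x => (u (x + z)) ^ 2 * (Pp l r (x + z)) ^ 2 * (Pa j r x) ^ 2) ≤
        CT * (1 + kap l * dl z) ^ 2 * (xx l j u r + 1) ∧
      (kap j) ^ 2 * cint (fun x => (u (x + z)) ^ 2 * (Pp j r (x + z)) ^ 2 * (Pa l r x) ^ 2) ≤
        CT * (1 + kap l * dl z) ^ 2 * (xx l j u r + 1))
    (hCr : ∀ (l j : ℕ) (h : ℝ), (kap j) ^ 2 * (∫ t in t0..t1, cint (fun x =>
      (Pa l (r t) x) ^ 2 * (Pp j (r t) (h - x)) ^ 2)) ≤ CC * (t1 - t0 + 1))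
    (hsup : ∀ t x, (u t x) ^ 2 ≤ CS ^ 2)
    (hIdn : ∀ (t : ℝ) (h : ℕ) (x : ℝ),
      Pa h (u t) x = (Pp h (r t) x - Pp h (r t) (-x)) / 2)
    {j h : ℕ} (hj : M ≤ j) (hh : M ≤ h) (hsep : Sep h j ∨ Sep j h)
    {Λ : ℝ} (hΛ : 1 ≤ Λ)
    (hX1 : Sep h j → X h j u r t0 t1 ≤ Λ * ((t1 - t0 + 1) + (kap h) ^ 2))
    (hX2 : Sep j h → X j h u r t0 t1 ≤ Λ * ((t1 - t0 + 1) + (kap j) ^ 2)) (z : ℝ) :
    ii t0 t1 (fun t x => (u t (x - z)) ^ 2 * (Pa h (u t) (x - z)) ^ 2 * (Pa j (r t) x) ^ 2) ≤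
      (CT + CS ^ 2 * CC) / (kap h) ^ 2 *
        ((1 + kap j * dl z) ^ 2 * (Λ * ((t1 - t0 + 1) + (kap j) ^ 2))) := by
  have ju : JC u := hu.cu
  have jr : JC r := hu.cr
  have hkj := S70.kap_pos j
  have hkh := S70.kap_pos h
  have hdz := S70.dl_nonneg z
  set T : ℝ := t1 - t0 + 1 with hT
  have hT1 : 1 ≤ T := by rw [hT]; linarith
  set Y : ℝ := Λ * (T + (kap j) ^ 2) with hY
  have hY1 : T ≤ Y := by
    rw [hY]
    have h1 : T + (kap j) ^ 2 ≤ Λ * (T + (kap j) ^ 2) :=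
      le_mul_of_one_le_left (by positivity) hΛ
    nlinarith [sq_nonneg (kap j)]
  have hY0 : 0 ≤ Y := by linarith
  have hw1 : 1 ≤ 1 + kap j * dl z := by nlinarith [mul_nonneg hkj.le hdz]
  have hw2 : 1 ≤ (1 + kap j * dl z) ^ 2 := one_le_pow₀ hw1
  -- term 1
  have jA : JC fun t x => (u t (x - z)) ^ 2 * (Pp h (r t) (x - z)) ^ 2 * (Pa j (r t) x) ^ 2 :=
    (((ju.shift z).pow 2).mul (((jr.pp h).shift z).pow 2)).mul ((jr.pa j).pow 2)
  have hA : ii t0 t1 (fun t x => (u t (x - z)) ^ 2 * (Pp h (r t) (x - z)) ^ 2 *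
      (Pa j (r t) x) ^ 2) ≤ CT / (kap h) ^ 2 * ((1 + kap j * dl z) ^ 2 * (2 * Y)) := by
    -- for a function with a bound at each time
    have key : ∀ (a b : ℕ), (∀ t, (kap h) ^ 2 * cint (fun x => (u t (x - z)) ^ 2 *
          (Pp h (r t) (x - z)) ^ 2 * (Pa j (r t) x) ^ 2) ≤
          CT * (1 + kap j * dl z) ^ 2 * (xx a b (u t) (r t) + 1)) →
        X a b u r t0 t1 ≤ Y →
        ii t0 t1 (fun t x => (u t (x - z)) ^ 2 * (Pp h (r t) (x - z)) ^ 2 *
          (Pa j (r t) x) ^ 2) ≤ CT / (kap h) ^ 2 * ((1 + kap j * dl z) ^ 2 * (2 * Y)) := by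
      intro a b h1 h2
      have c1 : Continuous fun t => xx a b (u t) (r t) := S70.xx_cont ju jr a b
      have h3 : (∫ t in t0..t1, (kap h) ^ 2 * cint (fun x => (u t (x - z)) ^ 2 *
          (Pp h (r t) (x - z)) ^ 2 * (Pa j (r t) x) ^ 2)) ≤
          ∫ t in t0..t1, CT * (1 + kap j * dl z) ^ 2 * (xx a b (u t) (r t) + 1) :=
        intervalIntegral.integral_mono ht ((continuous_const.mul jA.cint).intervalIntegrable _ _)
          ((continuous_const.mul (c1.add continuous_const)).intervalIntegrable _ _) h1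
      rw [intervalIntegral.integral_const_mul, intervalIntegral.integral_const_mul,
        intervalIntegral.integral_add (c1.intervalIntegrable _ _)
          (continuous_const.intervalIntegrable _ _), intervalIntegral.integral_const] at h3
      have h4 : (∫ t in t0..t1, xx a b (u t) (r t)) + (t1 - t0) • (1 : ℝ) ≤ 2 * Y := by
        have h5 : (∫ t in t0..t1, xx a b (u t) (r t)) ≤ Y := h2
        rw [smul_eq_mul]
        linarith
      have h6 := mul_le_mul_of_nonneg_left h4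
        (show 0 ≤ CT * (1 + kap j * dl z) ^ 2 by positivity)
      have h7 := h3.trans h6
      rw [div_mul_eq_mul_div, le_div_iff₀ (by positivity), mul_comm]
      unfold ii
      refine h7.trans (le_of_eq ?_)
      ring
    have e1 : ∀ x : ℝ, x + -z = x - z := fun x => by ring
    rcases hsep with hs | hs
    · refine key h j (fun t => ?_) ?_
      · have h1 := (hTR (u t) (r t) (hu.prof t) h j hh hs (-z)).1
        simp only [e1, S70.dl_neg] at h1
        refine h1.trans ?_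
        have hle : kap h ≤ kap j := by unfold Sep at hs; linarith
        have h2 : 0 ≤ 1 + kap h * dl z := by positivity
        have h3 : 1 + kap h * dl z ≤ 1 + kap j * dl z := by nlinarith
        have h4 := pow_le_pow_left₀ h2 h3 2
        have h5 : 0 ≤ xx h j (u t) (r t) + 1 := by
          have : 0 ≤ xx h j (u t) (r t) := by
            unfold xx
            exact S70.cint_nonneg fun x => S70.cint_nonneg fun y => by
              have h8 : 0 ≤ th h (x - y) := by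
                unfold th
                exact div_nonneg hkh.le (sq_nonneg _)
              positivity
          linarith
        exact mul_le_mul_of_nonneg_right (mul_le_mul_of_nonneg_left h4 hCT.le) h5
      · have hle : kap h ≤ kap j := by unfold Sep at hs; linarith
        refine (hX1 hs).trans ?_
        rw [hY]
        have h4 := pow_le_pow_left₀ hkh.le hle 2
        exact mul_le_mul_of_nonneg_left (by linarith) (by linarith)
    · refine key j h (fun t => ?_) (hX2 hs)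
      have h1 := (hTR (u t) (r t) (hu.prof t) j h hj hs (-z)).2
      simp only [e1, S70.dl_neg] at h1
      exact h1
  -- term 2
  have jB : JC fun t x => (Pa j (r t) x) ^ 2 * (Pp h (r t) (z - x)) ^ 2 :=
    ((jr.pa j).pow 2).mul (((jr.pp h).refl z).pow 2)
  have hB : ii t0 t1 (fun t x => (Pa j (r t) x) ^ 2 * (Pp h (r t) (z - x)) ^ 2) ≤
      CC / (kap h) ^ 2 * T := by
    have h1 := hCr j h z
    rw [div_mul_eq_mul_div, le_div_iff₀ (by positivity), mul_comm]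
    exact h1
  have hle : ii t0 t1 (fun t x => (u t (x - z)) ^ 2 * (Pa h (u t) (x - z)) ^ 2 *
      (Pa j (r t) x) ^ 2) ≤
      ii t0 t1 fun t x => (1 / 2) * ((u t (x - z)) ^ 2 * (Pp h (r t) (x - z)) ^ 2 *
        (Pa j (r t) x) ^ 2) + (CS ^ 2 / 2) * ((Pa j (r t) x) ^ 2 * (Pp h (r t) (z - x)) ^ 2) := by
    refine S70.ii_mono ht ((((ju.shift z).pow 2).mul (((ju.pa h).shift z).pow 2)).mul
      ((jr.pa j).pow 2)) (((JC.const _).mul jA).add ((JC.const _).mul jB)) fun t x => ?_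
    rw [hIdn t h (x - z), show -(x - z) = z - x by ring]
    have e1 : ((Pp h (r t) (x - z) - Pp h (r t) (z - x)) / 2) ^ 2 ≤
        1 / 2 * (Pp h (r t) (x - z)) ^ 2 + 1 / 2 * (Pp h (r t) (z - x)) ^ 2 := by
      nlinarith [sq_nonneg (Pp h (r t) (x - z) + Pp h (r t) (z - x))]
    have e2 := hsup t (x - z)
    have e3 : (u t (x - z)) ^ 2 * ((Pp h (r t) (x - z) - Pp h (r t) (z - x)) / 2) ^ 2 ≤
        1 / 2 * ((u t (x - z)) ^ 2 * (Pp h (r t) (x - z)) ^ 2) +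
          CS ^ 2 / 2 * (Pp h (r t) (z - x)) ^ 2 := by
      have e4 := mul_le_mul_of_nonneg_left e1 (sq_nonneg (u t (x - z)))
      have e5 := mul_le_mul_of_nonneg_right e2 (sq_nonneg (Pp h (r t) (z - x)))
      nlinarith
    have e6 := mul_le_mul_of_nonneg_right e3 (sq_nonneg (Pa j (r t) x))
    refine e6.trans (le_of_eq ?_)
    ring
  refine hle.trans ?_
  rw [S70.ii_add ((JC.const _).mul jA) ((JC.const _).mul jB), S70.ii_mul, S70.ii_mul]
  have f1 := mul_le_mul_of_nonneg_left hA (show (0 : ℝ) ≤ 1 / 2 by norm_num)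
  have f2 := mul_le_mul_of_nonneg_left hB (show (0 : ℝ) ≤ CS ^ 2 / 2 by positivity)
  refine (add_le_add f1 f2).trans ?_
  have g1 : 1 / 2 * (CT / kap h ^ 2 * ((1 + kap j * dl z) ^ 2 * (2 * Y))) +
      CS ^ 2 / 2 * (CC / kap h ^ 2 * T) =
      (CT * ((1 + kap j * dl z) ^ 2 * Y) + CS ^ 2 * CC / 2 * T) / kap h ^ 2 := by
    field_simp
  have g2 : (CT + CS ^ 2 * CC) / kap h ^ 2 * ((1 + kap j * dl z) ^ 2 * Y) =
      (CT + CS ^ 2 * CC) * ((1 + kap j * dl z) ^ 2 * Y) / kap h ^ 2 := by ring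
  rw [g1, g2]
  apply div_le_div_of_nonneg_right _ (by positivity)
  have g3 : T ≤ (1 + kap j * dl z) ^ 2 * Y := by
    have : Y ≤ (1 + kap j * dl z) ^ 2 * Y := le_mul_of_one_le_left hY0 hw2
    linarith
  have g4 : 0 ≤ CS ^ 2 * CC := by positivity
  nlinarith [mul_le_mul_of_nonneg_left g3 g4, mul_nonneg g4 (by linarith : (0 : ℝ) ≤ T)]

/-- the part with the high frequencies of `u` instead of `u` -/
theorem one_h' {M : ℕ} {E CS : ℝ} (hCS : 0 < CS)
    {u r : ℝ → ℝ → ℝ} (hu : Core E u r) {t0 t1 : ℝ} (ht : t0 ≤ t1) {j h : ℕ} (hj : M ≤ j)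
    (s1 : ∀ t x, (u t x - Lo (j - M) (u t) x) ^ 2 ≤ CS / kap (j - M))
    (s2 : ∀ t x, (Pa j (r t) x) ^ 2 ≤ CS * kap j)
    (s3 : ∀ t, cint (fun x => (Pa h (u t) x) ^ 2) ≤ CS / (kap h) ^ 2) (z : ℝ) :
    ii t0 t1 (fun t x => (u t (x - z) - Lo (j - M) (u t) (x - z)) ^ 2 *
        (Pa h (u t) (x - z)) ^ 2 * (Pa j (r t) x) ^ 2) ≤
      (t1 - t0) * (CS ^ 3 * (65 / 64 : ℝ) ^ M / (kap h) ^ 2) := by
  have ju : JC u := hu.cu
  have jr : JC r := hu.cr
  have hkn := S70.kap_pos (j - M)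
  have hkj := S70.kap_pos j
  have hkh := S70.kap_pos h
  have hk : kap j = kap (j - M) * (65 / 64 : ℝ) ^ M := by
    rw [← S70.kap_add, Nat.sub_add_cancel hj]
  have jF : JC fun t x => (u t (x - z) - Lo (j - M) (u t) (x - z)) ^ 2 *
      (Pa h (u t) (x - z)) ^ 2 * (Pa j (r t) x) ^ 2 :=
    ((((ju.shift z).sub ((ju.lo (j - M)).shift z)).pow 2).mul (((ju.pa h).shift z).pow 2)).mul
      ((jr.pa j).pow 2)
  refine S70.ii_le ht jF fun t _ => ?_
  have cw : Continuous fun x => (Pa h (u t) x) ^ 2 := ((ju.pa h).pow 2).slice t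
  have cws : Continuous fun x => (Pa h (u t) (x - z)) ^ 2 := (((ju.pa h).shift z).pow 2).slice t
  have h1 : cint (fun x => (u t (x - z) - Lo (j - M) (u t) (x - z)) ^ 2 *
      (Pa h (u t) (x - z)) ^ 2 * (Pa j (r t) x) ^ 2) ≤
      cint fun x => (CS / kap (j - M) * (CS * kap j)) * (Pa h (u t) (x - z)) ^ 2 := by
    refine S70.cint_mono (jF.slice t) (continuous_const.mul cws) fun x => ?_
    have e1 := mul_le_mul (s1 t (x - z)) (s2 t x) (sq_nonneg _) (by positivity)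
    have e2 := mul_le_mul_of_nonneg_right e1 (sq_nonneg (Pa h (u t) (x - z)))
    refine le_trans (le_of_eq ?_) e2
    ring
  refine h1.trans ?_
  rw [S70.cint_mul]
  have hper : Function.Periodic (fun x => (Pa h (u t) x) ^ 2) 2 := by
    intro x
    have := S70.conv_per (S70.A_per h) (u t) x
    show (Pa h (u t) (x + 2)) ^ 2 = (Pa h (u t) x) ^ 2
    unfold Pa
    rw [this]
  have h2 : cint (fun x => (Pa h (u t) (x - z)) ^ 2) = cint fun x => (Pa h (u t) x) ^ 2 :=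
    S70.cint_shift hper z
  rw [h2]
  have h3 := mul_le_mul_of_nonneg_left (s3 t)
    (show 0 ≤ CS / kap (j - M) * (CS * kap j) by positivity)
  refine h3.trans (le_of_eq ?_)
  rw [hk]
  field_simp

/-- the far part -/
theorem far_bd {E CS CL L : ℝ} (hCL : 0 < CL)
    {u r : ℝ → ℝ → ℝ} (hu : Core E u r) {t0 t1 : ℝ} (ht : t0 ≤ t1) {j J : ℕ} (hj : j < J)
    (hL : L ^ 2 ≤ kap J)
    (s1 : ∀ t ∈ Icc t0 t1, ∀ x, (u t x - Lo J (u t) x) ^ 2 ≤ CL * L ^ 2 / (kap J) ^ 3)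
    (s3 : ∀ t, cint (fun x => (Pa j (r t) x) ^ 2) ≤ CS) (z : ℝ) :
    ii t0 t1 (fun t x => (u t (x - z) - Lo J (u t) (x - z)) ^ 2 * (Pa j (r t) x) ^ 2) ≤
      (t1 - t0) * (CL * CS / (kap j) ^ 2) := by
  have ju : JC u := hu.cu
  have jr : JC r := hu.cr
  have hkJ := S70.kap_pos J
  have hkj := S70.kap_pos j
  have hle : kap j ≤ kap J := S70.kap_mono hj.le
  have jF : JC fun t x => (u t (x - z) - Lo J (u t) (x - z)) ^ 2 * (Pa j (r t) x) ^ 2 :=
    (((ju.shift z).sub ((ju.lo J).shift z)).pow 2).mul ((jr.pa j).pow 2)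
  refine S70.ii_le ht jF fun t htt => ?_
  have cr : Continuous fun x => (Pa j (r t) x) ^ 2 := ((jr.pa j).pow 2).slice t
  have h0 : CL * L ^ 2 / (kap J) ^ 3 ≤ CL / (kap j) ^ 2 := by
    rw [div_le_div_iff₀ (by positivity) (by positivity)]
    have h1 : L ^ 2 * (kap j) ^ 2 ≤ kap J * (kap J) ^ 2 :=
      mul_le_mul hL (pow_le_pow_left₀ hkj.le hle 2) (by positivity) hkJ.le
    nlinarith
  have h1 : cint (fun x => (u t (x - z) - Lo J (u t) (x - z)) ^ 2 * (Pa j (r t) x) ^ 2) ≤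
      cint fun x => (CL / (kap j) ^ 2) * (Pa j (r t) x) ^ 2 := by
    refine S70.cint_mono (jF.slice t) (continuous_const.mul cr) fun x => ?_
    exact mul_le_mul_of_nonneg_right ((s1 t htt (x - z)).trans h0) (sq_nonneg _)
  refine h1.trans ?_
  rw [S70.cint_mul]
  have h3 := mul_le_mul_of_nonneg_left (s3 t) (show 0 ≤ CL / (kap j) ^ 2 by positivity)
  refine h3.trans (le_of_eq ?_)
  ring

/-- pointwise inequality for the first factor -/
theorem pw1 {s : Finset ℕ} {lo uu f R2 CS : ℝ} (w : ℕ → ℝ) (hR : 0 ≤ R2) (hlo : lo ^ 2 ≤ CS ^ 2) :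
    (lo * (∑ h ∈ s, w h + f)) ^ 2 * R2 ≤
      (∑ h ∈ s, (4 * (∑ h ∈ s, 1 / kap h) * kap h) * (uu ^ 2 * (w h) ^ 2 * R2 +
        (uu - lo) ^ 2 * (w h) ^ 2 * R2)) + (2 * CS ^ 2) * (f ^ 2 * R2) := by
  set G := ∑ h ∈ s, 1 / kap h with hG
  have hG0 : 0 ≤ G := geo_nonneg s
  have h1 := wcs s w
  rw [← hG] at h1
  clear_value G
  have h2 : (lo * (∑ h ∈ s, w h + f)) ^ 2 ≤
      2 * (lo ^ 2 * (∑ h ∈ s, w h) ^ 2) + 2 * (lo ^ 2 * f ^ 2) := by
    have e : (lo * (∑ h ∈ s, w h + f)) ^ 2 = lo ^ 2 * (∑ h ∈ s, w h + f) ^ 2 := by ring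
    rw [e]
    have e2 : (∑ h ∈ s, w h + f) ^ 2 ≤ 2 * (∑ h ∈ s, w h) ^ 2 + 2 * f ^ 2 := by
      nlinarith [sq_nonneg (∑ h ∈ s, w h - f)]
    have e3 := mul_le_mul_of_nonneg_left e2 (sq_nonneg lo)
    linarith
  have h3 : lo ^ 2 * (∑ h ∈ s, w h) ^ 2 ≤
      ∑ h ∈ s, (2 * G * kap h) * (uu ^ 2 * (w h) ^ 2 + (uu - lo) ^ 2 * (w h) ^ 2) := by
    have e1 := mul_le_mul_of_nonneg_left h1 (sq_nonneg lo)
    refine e1.trans ?_
    have e0 : lo ^ 2 * (G * ∑ h ∈ s, kap h * w h ^ 2) =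
        ∑ h ∈ s, lo ^ 2 * (G * (kap h * w h ^ 2)) := by
      rw [Finset.mul_sum, Finset.mul_sum]
    rw [e0]
    refine Finset.sum_le_sum fun h _ => ?_
    have hk := S70.kap_pos h
    have e2 : lo ^ 2 ≤ 2 * uu ^ 2 + 2 * (uu - lo) ^ 2 := by
      nlinarith [sq_nonneg (uu + (uu - lo))]
    have e3 := mul_le_mul_of_nonneg_right e2 (show 0 ≤ G * (kap h * w h ^ 2) by positivity)
    refine e3.trans (le_of_eq ?_)
    ring
  have h4 := mul_le_mul_of_nonneg_right h2 hR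
  refine h4.trans ?_
  have h5 := mul_le_mul_of_nonneg_right h3 hR
  have h6 : lo ^ 2 * f ^ 2 * R2 ≤ CS ^ 2 * (f ^ 2 * R2) := by
    have := mul_le_mul_of_nonneg_right hlo (show 0 ≤ f ^ 2 * R2 by positivity)
    linarith
  rw [Finset.sum_mul] at h5
  have h7 : ∑ h ∈ s, (4 * G * kap h) * (uu ^ 2 * (w h) ^ 2 * R2 + (uu - lo) ^ 2 * (w h) ^ 2 * R2) =
      2 * ∑ h ∈ s, (2 * G * kap h) * (uu ^ 2 * (w h) ^ 2 + (uu - lo) ^ 2 * (w h) ^ 2) * R2 := by
    rw [Finset.mul_sum]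
    apply Finset.sum_congr rfl
    intro h _
    ring
  rw [h7]
  linarith

end

end Pool.Agent.C1E.Sc31
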