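import Pool.Agent.Lib.MP_c1e222_an.H70.St
import Pool.Agent.Lib.MP_c1e222_an.Dec

/-!
# MP_c1e222_an, row Sc (helper31): tools
-/

set_option autoImplicit false

namespace Pool.Agent.C1E.Sc31

open MeasureTheory Set Filter Topology
open S70 (JC ii)

noncomputable section

/-! ### telescoping -/

theorem pa_eq (i : ℕ) {f : ℝ → ℝ} (hf : Continuous f) (x : ℝ) :
    Pa i f x = Lo (i + 1) f x - Lo i f x := by
  unfold Pa Lo conv
  rw [← intervalIntegral.integral_sub]
  · refine intervalIntegral.integral_congr fun y _ => ?_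
    show A i (x - y) * f y = V (i + 1) (x - y) * f y - V i (x - y) * f y
    unfold A
    ring
  · exact (((S70.V_cont (i + 1)).comp (continuous_const.sub continuous_id)).mul
      hf).intervalIntegrable _ _
  · exact (((S70.V_cont i).comp (continuous_const.sub continuous_id)).mul hf).intervalIntegrable _ _

theorem sum_pa {M N : ℕ} (h : M ≤ N) {f : ℝ → ℝ} (hf : Continuous f) (x : ℝ) :
    ∑ a ∈ Finset.Ico M N, Pa a f x = Lo N f x - Lo M f x := by
  induction N, h using Nat.le_induction with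
  | base => simp
  | succ n hn ih =>
    rw [Finset.sum_Ico_succ_top hn, ih, pa_eq n hf]
    ring

theorem Pa_zero (j : ℕ) (x : ℝ) : Pa j (fun _ => 0) x = 0 := by
  unfold Pa conv
  simp

theorem Pa_sum {ι : Type*} (j : ℕ) (s : Finset ι) (f : ι → ℝ → ℝ) (hf : ∀ i, Continuous (f i))
    (x : ℝ) : Pa j (fun y => ∑ i ∈ s, f i y) x = ∑ i ∈ s, Pa j (f i) x := by
  classical
  induction s using Finset.induction_on with
  | empty => simp [Pa_zero]
  | insert a s ha ih =>
    rw [Finset.sum_insert ha, ← ih, ← Dec31.Pa_add j (hf a) (continuous_finsetSum s fun i _ => hf i)]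
    congr 1
    funext y
    rw [Finset.sum_insert ha]

/-! ### sums over the frequencies -/

theorem inv_kap (h : ℕ) : 1 / kap h = 65 / kap h - 65 / kap (h + 1) := by
  have h1 := S70.kap_pos h
  have h2 : kap (h + 1) = 65 / 64 * kap h := by unfold kap; rw [pow_succ]; ring
  rw [h2]
  field_simp
  norm_num

theorem geo (n J : ℕ) : ∑ h ∈ Finset.Ico n J, 1 / kap h ≤ 65 / kap n := by
  have hn := S70.kap_pos n
  rcases le_total n J with hJ | hJ
  · have h1 : ∀ J, n ≤ J → ∑ h ∈ Finset.Ico n J, 1 / kap h = 65 / kap n - 65 / kap J := by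
      intro J hJ
      induction J, hJ using Nat.le_induction with
      | base => simp
      | succ m hm ih =>
        rw [Finset.sum_Ico_succ_top hm, ih, inv_kap m]
        ring
    rw [h1 J hJ]
    have h2 : 0 ≤ 65 / kap J := div_nonneg (by norm_num) (S70.kap_pos J).le
    linarith
  · rw [Finset.Ico_eq_empty_of_le hJ, Finset.sum_empty]
    positivity

theorem geo_sub {n J : ℕ} {s : Finset ℕ} (hs : s ⊆ Finset.Ico n J) :
    ∑ h ∈ s, 1 / kap h ≤ 65 / kap n :=
  (Finset.sum_le_sum_of_subset_of_nonneg hs fun h _ _ =>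
    (one_div_nonneg.2 (S70.kap_pos h).le)).trans (geo n J)

theorem geo_nonneg (s : Finset ℕ) : 0 ≤ ∑ h ∈ s, 1 / kap h :=
  Finset.sum_nonneg fun h _ => one_div_nonneg.2 (S70.kap_pos h).le

/-- weighted Cauchy-Schwarz -/
theorem wcs (s : Finset ℕ) (f : ℕ → ℝ) :
    (∑ h ∈ s, f h) ^ 2 ≤ (∑ h ∈ s, 1 / kap h) * ∑ h ∈ s, kap h * (f h) ^ 2 := by
  refine Finset.sum_sq_le_sum_mul_sum_of_sq_le_mul s (fun h _ => ?_) (fun h _ => ?_) fun h _ => ?_
  · exact one_div_nonneg.2 (S70.kap_pos h).le
  · exact mul_nonneg (S70.kap_pos h).le (sq_nonneg _)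
  · have := S70.kap_pos h
    refine le_of_eq ?_
    field_simp

/-! ### the weight -/

theorem abs_le_dl {x : ℝ} (h : |x| ≤ 1) : |x| ≤ dl x := by
  unfold dl
  have h0 : |Real.pi * x / 2| ≤ Real.pi / 2 := by
    rw [abs_div, abs_mul, abs_of_pos Real.pi_pos, abs_of_pos (by norm_num : (0:ℝ) < 2)]
    have := Real.pi_pos
    nlinarith [abs_nonneg x]
  have h1 := Real.mul_abs_le_abs_sin h0
  have h2 : 2 / Real.pi * |Real.pi * x / 2| = |x| := by
    rw [abs_div, abs_mul, abs_of_pos Real.pi_pos, abs_of_pos (by norm_num : (0:ℝ) < 2)]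
    have := Real.pi_ne_zero
    field_simp
  rwa [h2] at h1

theorem th_neg (i : ℕ) (x : ℝ) : th i (-x) = th i x := by
  unfold th
  rw [S70.dl_neg]

theorem half_th (i : ℕ) : (∫ x in (0 : ℝ)..1, th i x) ≤ 1 := by
  have hk := S70.kap_pos i
  have hd : ∀ x ∈ uIcc (0 : ℝ) 1,
      HasDerivAt (fun x => -(1 + kap i * x)⁻¹) (kap i / (1 + kap i * x) ^ 2) x := by
    intro x hx
    rw [uIcc_of_le zero_le_one] at hx
    have hx0 : 0 ≤ x := hx.1
    have hne : (1 + kap i * x) ≠ 0 := by positivity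
    have h1 : HasDerivAt (fun x : ℝ => 1 + kap i * x) (kap i) x := by
      simpa using ((hasDerivAt_id x).const_mul (kap i)).const_add 1
    have h2 := (h1.inv hne).neg
    refine h2.congr_deriv ?_
    ring
  have hcont : ContinuousOn (fun x : ℝ => kap i / (1 + kap i * x) ^ 2) (uIcc (0 : ℝ) 1) := by
    refine continuousOn_const.div (by fun_prop) fun x hx => ?_
    rw [uIcc_of_le zero_le_one] at hx
    have hx0 : 0 ≤ x := hx.1
    positivity
  have hint : (∫ x in (0 : ℝ)..1, kap i / (1 + kap i * x) ^ 2) =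
      -(1 + kap i * 1)⁻¹ - -(1 + kap i * 0)⁻¹ :=
    intervalIntegral.integral_eq_sub_of_hasDerivAt hd (hcont.intervalIntegrable)
  have hle : (∫ x in (0 : ℝ)..1, th i x) ≤ ∫ x in (0 : ℝ)..1, kap i / (1 + kap i * x) ^ 2 := by
    refine intervalIntegral.integral_mono_on zero_le_one ((S70.th_cont i).intervalIntegrable _ _)
      (hcont.intervalIntegrable) fun x hx => ?_
    have h1 : x ≤ dl x := by
      have h2 := abs_le_dl (x := x) (by rw [abs_of_nonneg hx.1]; exact hx.2)
      rwa [abs_of_nonneg hx.1] at h2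
    unfold th
    have hx0 : 0 ≤ x := hx.1
    have h3 : 1 + kap i * x ≤ 1 + kap i * dl x := by nlinarith
    have h4 : (1 + kap i * x) ^ 2 ≤ (1 + kap i * dl x) ^ 2 :=
      pow_le_pow_left₀ (by positivity) h3 2
    exact div_le_div_of_nonneg_left hk.le (by positivity) h4
  refine hle.trans ?_
  rw [hint]
  have : 0 ≤ (1 + kap i * 1)⁻¹ := by positivity
  simp
  linarith

theorem cint_th_le (i : ℕ) : cint (th i) ≤ 2 := by
  have h1 : cint (th i) = (∫ x in (-1 : ℝ)..0, th i x) + ∫ x in (0 : ℝ)..1, th i x := by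
    unfold cint
    exact (intervalIntegral.integral_add_adjacent_intervals ((S70.th_cont i).intervalIntegrable _ _)
      ((S70.th_cont i).intervalIntegrable _ _)).symm
  have h2 : (∫ x in (-1 : ℝ)..0, th i x) = ∫ x in (0 : ℝ)..1, th i x := by
    have h3 := intervalIntegral.integral_comp_neg (a := 0) (b := 1) (fun x => th i x)
    rw [neg_zero] at h3
    rw [← h3]
    exact intervalIntegral.integral_congr fun x _ => th_neg i x
  rw [h1, h2]
  have := half_th i
  linarith

/-- integral of the kernel `A_j` with the weight -/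
theorem A_int {CK : ℝ} (hCK : 0 < CK)
    (hK : ∀ (i : ℕ) (x : ℝ), |V i x| ≤ CK * kap i / (1 + kap i * dl x) ^ 4) (j : ℕ) :
    cint (fun z => |A j z| * (1 + kap j * dl z)) ≤ 4 * CK := by
  have hV : ∀ (i : ℕ) (z : ℝ), |V i z| * (1 + kap i * dl z) ≤ CK * th i z := by
    intro i z
    have hk := S70.kap_pos i
    have hd := S70.dl_nonneg z
    have h1 : 1 ≤ 1 + kap i * dl z := by nlinarith [mul_nonneg hk.le hd]
    have h0 : 0 < 1 + kap i * dl z := by linarith
    have h2 := mul_le_mul_of_nonneg_right (hK i z) h0.le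
    refine h2.trans ?_
    unfold th
    rw [div_mul_eq_mul_div, mul_div_assoc', div_le_div_iff₀ (by positivity) (by positivity)]
    have h3 : (1 + kap i * dl z) * (1 + kap i * dl z) ^ 2 ≤ (1 + kap i * dl z) ^ 4 := by
      have : (1 + kap i * dl z) ^ 4 = (1 + kap i * dl z) * ((1 + kap i * dl z) * (1 + kap i * dl z) ^ 2) := by
        ring
      rw [this]
      have h4 : 0 ≤ (1 + kap i * dl z) ^ 2 := sq_nonneg _
      refine mul_le_mul_of_nonneg_left ?_ h0.le
      exact le_mul_of_one_le_left h4 h1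
    calc CK * kap i * (1 + kap i * dl z) * (1 + kap i * dl z) ^ 2
        = CK * kap i * ((1 + kap i * dl z) * (1 + kap i * dl z) ^ 2) := by ring
      _ ≤ CK * kap i * (1 + kap i * dl z) ^ 4 := mul_le_mul_of_nonneg_left h3 (by positivity)
  have hA : ∀ z, |A j z| * (1 + kap j * dl z) ≤ CK * th (j + 1) z + CK * th j z := by
    intro z
    have hd := S70.dl_nonneg z
    have hk := S70.kap_pos j
    have hm : kap j ≤ kap (j + 1) := S70.kap_mono (Nat.le_succ j)
    have h1 : |A j z| ≤ |V (j + 1) z| + |V j z| := abs_sub _ _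
    have h0 : 0 < 1 + kap j * dl z := by nlinarith [mul_nonneg hk.le hd]
    have h2 : 1 + kap j * dl z ≤ 1 + kap (j + 1) * dl z := by nlinarith
    calc |A j z| * (1 + kap j * dl z) ≤ (|V (j + 1) z| + |V j z|) * (1 + kap j * dl z) :=
          mul_le_mul_of_nonneg_right h1 h0.le
      _ = |V (j + 1) z| * (1 + kap j * dl z) + |V j z| * (1 + kap j * dl z) := by ring
      _ ≤ |V (j + 1) z| * (1 + kap (j + 1) * dl z) + |V j z| * (1 + kap j * dl z) := by
          have := mul_le_mul_of_nonneg_left h2 (abs_nonneg (V (j + 1) z))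
          linarith
      _ ≤ _ := add_le_add (hV _ _) (hV _ _)
  have c1 := S70.A_cont j
  have c2 := S70.dl_cont
  have c3 := S70.th_cont j
  have c4 := S70.th_cont (j + 1)
  refine (S70.cint_mono (by fun_prop) (by fun_prop) hA).trans ?_
  rw [S70.cint_add (by fun_prop) (by fun_prop), S70.cint_mul, S70.cint_mul]
  have h1 := cint_th_le j
  have h2 := cint_th_le (j + 1)
  nlinarith

end

end Pool.Agent.C1E.Sc31
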